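import Pool.Agent.Helper372.SuperAt

set_option autoImplicit false

open Cardinal

universe u

namespace Pool.Agent.Results.MP_8a899a_lc.RegularOrStrongLimit

/-- `B` is superatomic: every homomorphic image of `B` is atomic. -/
def Superatomic (B : Type u) [BooleanAlgebra B] : Prop :=
  ∀ (C : Type u) [BooleanAlgebra C] (f : BoundedLatticeHom B C), Function.Surjective f →
    IsAtomic C

/-- Let `κ` be an infinite cardinal which is regular or a strong limit, and let `B` be a Boolean
algebra of cardinality `κ` isomorphic to all its subalgebras of cardinality `κ`. Then `B` is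
superatomic. -/
theorem result (κ : Cardinal.{u}) (hκ : κ.IsRegular ∨ κ.IsStrongLimit)
    (B : Type u) [BooleanAlgebra B] (hB : #B = κ)
    (hstar : ∀ A : BooleanSubalgebra B, #A = κ → Nonempty (A ≃o B)) : Superatomic B := by
  intro C _ f hf
  refine Pool.Agent.Helper372.SuperAt.isAtomic_of_sc_top ?_ f hf
  rcases hκ with h | h
  · exact Pool.Agent.Helper372.SuperAt.sc_top_of_regular h hB hstar
  · exact Pool.Agent.Helper372.SuperAt.sc_top_of_strongLimit h.aleph0_le
      (fun μ hμ => h.isStrongPrelimit hμ) hB hstar

end Pool.Agent.Results.MP_8a899a_lc.RegularOrStrongLimit
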